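import Mathlib

/-!
Fractions of weighted homogeneous polynomials; polynomials and homotheties.
-/

set_option autoImplicit false

namespace Pool.Agent.Y76.FG

open MvPolynomial

section frac

variable (k : Type) {L σ : Type} [Field k] [Field L] [Algebra k L] (wt : σ → ℕ) (τ : σ → L)

/-- `z` is the quotient of the values at `τ` of two weighted homogeneous polynomials of the same
degree -/
def Fr (z : L) : Prop :=
  ∃ (D : ℕ) (A B : MvPolynomial σ k), IsWeightedHomogeneous wt A D ∧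
    IsWeightedHomogeneous wt B D ∧ aeval τ B ≠ 0 ∧ z = aeval τ A / aeval τ B

variable {k wt τ}

theorem fr_add {x y : L} (hx : Fr k wt τ x) (hy : Fr k wt τ y) : Fr k wt τ (x + y) := by
  obtain ⟨D, A, B, hA, hB, hB0, rfl⟩ := hx
  obtain ⟨D', A', B', hA', hB', hB0', rfl⟩ := hy
  refine ⟨D + D', A * B' + B * A', B * B', ?_, hB.mul hB', ?_, ?_⟩
  · exact Submodule.add_mem (weightedHomogeneousSubmodule k wt (D + D')) (hA.mul hB') (hB.mul hA')
  · rw [map_mul]
    exact mul_ne_zero hB0 hB0'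
  · rw [map_add, map_mul, map_mul, map_mul, div_add_div _ _ hB0 hB0']

theorem fr_mul {x y : L} (hx : Fr k wt τ x) (hy : Fr k wt τ y) : Fr k wt τ (x * y) := by
  obtain ⟨D, A, B, hA, hB, hB0, rfl⟩ := hx
  obtain ⟨D', A', B', hA', hB', hB0', rfl⟩ := hy
  refine ⟨D + D', A * A', B * B', hA.mul hA', hB.mul hB', ?_, ?_⟩
  · rw [map_mul]
    exact mul_ne_zero hB0 hB0'
  · rw [map_mul, map_mul, div_mul_div_comm]

theorem fr_const (c : k) : Fr k wt τ (algebraMap k L c) := by
  refine ⟨0, C c, 1, isWeightedHomogeneous_C wt c, isWeightedHomogeneous_one k wt, ?_, ?_⟩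
  · rw [map_one]
    exact one_ne_zero
  · rw [map_one, div_one, aeval_C]

theorem fr_inv {x : L} (hx : Fr k wt τ x) : Fr k wt τ x⁻¹ := by
  obtain ⟨D, A, B, hA, hB, hB0, rfl⟩ := hx
  by_cases h : aeval τ A = 0
  · rw [h, zero_div, inv_zero]
    have := fr_const (k := k) (wt := wt) (τ := τ) 0
    rwa [map_zero] at this
  · exact ⟨D, B, A, hB, hA, h, by rw [inv_div]⟩

theorem fr_adjoin {S : Set L} (hS : ∀ z ∈ S, Fr k wt τ z) {z : L}
    (hz : z ∈ IntermediateField.adjoin k S) : Fr k wt τ z := by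
  induction hz using IntermediateField.adjoin_induction with
  | mem x hx => exact hS x hx
  | algebraMap c => exact fr_const c
  | add x y _ _ hx hy => exact fr_add hx hy
  | inv x _ hx => exact fr_inv hx
  | mul x y _ _ hx hy => exact fr_mul hx hy

theorem fr_common {ι : Type} [Fintype ι] (z : ι → L) (hz : ∀ i, Fr k wt τ (z i)) :
    ∃ (D : ℕ) (A : ι → MvPolynomial σ k) (B : MvPolynomial σ k),
      (∀ i, IsWeightedHomogeneous wt (A i) D) ∧ IsWeightedHomogeneous wt B D ∧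
      aeval τ B ≠ 0 ∧ ∀ i, z i * aeval τ B = aeval τ (A i) := by
  classical
  choose D A B hA hB hB0 hzi using hz
  refine ⟨∑ i, D i, fun i => A i * ∏ j ∈ Finset.univ.erase i, B j, ∏ j, B j, ?_, ?_, ?_, ?_⟩
  · intro i
    rw [← Finset.add_sum_erase Finset.univ D (Finset.mem_univ i)]
    exact (hA i).mul (IsWeightedHomogeneous.prod _ _ _ fun j _ => hB j)
  · exact IsWeightedHomogeneous.prod _ _ _ fun j _ => hB j
  · rw [map_prod, Finset.prod_ne_zero_iff]
    exact fun i _ => hB0 i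
  · intro i
    rw [← Finset.mul_prod_erase Finset.univ B (Finset.mem_univ i), map_mul, map_mul, ← mul_assoc,
      hzi i, div_mul_cancel₀ _ (hB0 i)]

theorem wh_comp {ι : Type} (R : ι → MvPolynomial σ k) {E : ℕ}
    (hR : ∀ i, IsWeightedHomogeneous wt (R i) E) {H : MvPolynomial ι k} {h : ℕ}
    (hH : H.IsHomogeneous h) : IsWeightedHomogeneous wt (aeval R H) (h * E) := by
  rw [aeval_def, eval₂_eq]
  refine Submodule.sum_mem (weightedHomogeneousSubmodule k wt (h * E)) fun c hc => ?_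
  have h1 : ∑ i ∈ c.support, c i • E = h * E := by
    have h2 := hH (mem_support_iff.mp hc)
    rw [Finsupp.weight_apply, Finsupp.sum] at h2
    simp only [Pi.one_apply, smul_eq_mul, mul_one] at h2
    simp only [smul_eq_mul]
    rw [← Finset.sum_mul, h2]
  have h3 : IsWeightedHomogeneous wt (∏ i ∈ c.support, R i ^ c i) (h * E) := by
    rw [← h1]
    exact IsWeightedHomogeneous.prod _ _ _ fun i _ => (hR i).pow _
  have h4 := (isWeightedHomogeneous_C (R := k) wt (coeff c H)).mul h3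
  rw [zero_add] at h4
  exact h4

theorem form_smul {M : Type} [CommRing M] [Algebra k M] {A : MvPolynomial σ k} {d : ℕ}
    (hA : A.IsHomogeneous d) (s : M) (x : σ → M) :
    aeval (fun i => s * x i) A = s ^ d * aeval x A := by
  rw [aeval_def, aeval_def, eval₂_eq, eval₂_eq, Finset.mul_sum]
  refine Finset.sum_congr rfl fun c hc => ?_
  have h1 : ∑ i ∈ c.support, c i = d := by
    have h2 := hA (mem_support_iff.mp hc)
    rw [Finsupp.weight_apply, Finsupp.sum] at h2
    simpa using h2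
  simp only [mul_pow]
  rw [Finset.prod_mul_distrib, Finset.prod_pow_eq_pow_sum, h1]
  ring

end frac

section scale

open Polynomial

/-- The homothety with centre `z0` and ratio `a`. -/
noncomputable def ho (z0 a : ℂ) : ℂ[X] := Polynomial.C z0 + Polynomial.C a * Polynomial.X

theorem ho_eval (z0 a : ℂ) : (ho z0 a).eval 0 = z0 := by
  simp [ho]

theorem comp_eval_zero (A : ℂ[X]) (z0 a : ℂ) : (A.comp (ho z0 a)).eval 0 = A.eval z0 := by
  rw [Polynomial.eval_comp, ho_eval]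

theorem comp_lin (D1 : ℂ[X]) (z0 b : ℂ) (e : ℕ) :
    ((Polynomial.X - Polynomial.C z0) ^ e * D1).comp (ho z0 b) =
      Polynomial.X ^ e * (Polynomial.C (b ^ e) * D1.comp (ho z0 b)) := by
  have h1 : ho z0 b - Polynomial.C z0 = Polynomial.C b * Polynomial.X := by
    unfold ho
    ring
  rw [Polynomial.mul_comp, Polynomial.pow_comp, Polynomial.sub_comp, Polynomial.X_comp,
    Polynomial.C_comp, h1, mul_pow, Polynomial.C_pow]
  ring

theorem scale0 {B D1 : ℂ[X]} {z0 a a' : ℂ} (e : ℕ) (hB : B.eval z0 ≠ 0) (hD1 : D1.eval z0 ≠ 0)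
    (haa : a ^ e ≠ a' ^ e)
    (h : ((Polynomial.X - Polynomial.C z0) ^ e * D1).comp (ho z0 a) * B.comp (ho z0 a') =
      ((Polynomial.X - Polynomial.C z0) ^ e * D1).comp (ho z0 a') * B.comp (ho z0 a)) : False := by
  have h1 : (Polynomial.X : ℂ[X]) ^ e *
      (Polynomial.C (a ^ e) * D1.comp (ho z0 a) * B.comp (ho z0 a')) =
      Polynomial.X ^ e * (Polynomial.C (a' ^ e) * D1.comp (ho z0 a') * B.comp (ho z0 a)) := by
    rw [comp_lin, comp_lin] at h
    linear_combination h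
  have h2 := mul_left_cancel₀ (pow_ne_zero e Polynomial.X_ne_zero) h1
  have h3 := congrArg (Polynomial.eval 0) h2
  rw [Polynomial.eval_mul, Polynomial.eval_mul, Polynomial.eval_mul, Polynomial.eval_mul,
    Polynomial.eval_C, Polynomial.eval_C, comp_eval_zero, comp_eval_zero, comp_eval_zero,
    comp_eval_zero] at h3
  have h4 : (a ^ e - a' ^ e) * (D1.eval z0 * B.eval z0) = 0 := by
    linear_combination h3
  rcases mul_eq_zero.1 h4 with h5 | h5
  · exact haa (sub_eq_zero.1 h5)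
  · exact (mul_ne_zero hD1 hB) h5

theorem scale1 {B D : ℂ[X]} {z0 a a' : ℂ} (hB : B.eval z0 ≠ 0) (hD0 : D.eval z0 = 0)
    (haa : ∀ e : ℕ, 0 < e → a ^ e ≠ a' ^ e)
    (h : D.comp (ho z0 a) * B.comp (ho z0 a') = D.comp (ho z0 a') * B.comp (ho z0 a)) : D = 0 := by
  by_contra hne
  obtain ⟨D1, hD1, hnd⟩ := Polynomial.exists_eq_pow_rootMultiplicity_mul_and_not_dvd D hne z0
  have he0 : 0 < D.rootMultiplicity z0 := (Polynomial.rootMultiplicity_pos hne).2 hD0
  have hD1e : D1.eval z0 ≠ 0 := fun h0 => hnd (Polynomial.dvd_iff_isRoot.2 h0)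
  generalize D.rootMultiplicity z0 = e at hD1 he0
  rw [hD1] at h
  exact scale0 e hB hD1e (haa e he0) h

theorem scale {A B : ℂ[X]} {z0 a a' : ℂ} (hB : B.eval z0 ≠ 0)
    (haa : ∀ e : ℕ, 0 < e → a ^ e ≠ a' ^ e)
    (h : A.comp (ho z0 a) * B.comp (ho z0 a') = A.comp (ho z0 a') * B.comp (ho z0 a)) :
    ∃ c : ℂ, A = Polynomial.C c * B := by
  refine ⟨A.eval z0 / B.eval z0, ?_⟩
  generalize hc : A.eval z0 / B.eval z0 = c
  rw [← sub_eq_zero]
  refine scale1 hB ?_ haa ?_
  · rw [Polynomial.eval_sub, Polynomial.eval_mul, Polynomial.eval_C, ← hc,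
      div_mul_cancel₀ _ hB, sub_self]
  · rw [Polynomial.sub_comp, Polynomial.sub_comp, Polynomial.mul_comp, Polynomial.mul_comp,
      Polynomial.C_comp, Polynomial.C_comp, sub_mul, sub_mul, h]
    ring

theorem scale' {S P0 Φ Ψ : ℂ[X]} {z0 a a' : ℂ} (hP : P0.eval z0 ≠ 0) (hΨ : Ψ.eval z0 ≠ 0)
    (haa : ∀ e : ℕ, 0 < e → a ^ e ≠ a' ^ e) (hr : P0 * Φ = S * Ψ)
    (h : Φ.comp (ho z0 a) * Ψ.comp (ho z0 a') = Φ.comp (ho z0 a') * Ψ.comp (ho z0 a)) :
    ∃ c : ℂ, S = Polynomial.C c * P0 := by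
  have hne : ∀ b, Ψ.comp (ho z0 b) ≠ 0 := by
    intro b h0
    apply hΨ
    rw [← comp_eval_zero Ψ z0 b, h0, Polynomial.eval_zero]
  have hrc : ∀ b, P0.comp (ho z0 b) * Φ.comp (ho z0 b) = S.comp (ho z0 b) * Ψ.comp (ho z0 b) := by
    intro b
    rw [← Polynomial.mul_comp, ← Polynomial.mul_comp, hr]
  refine scale hP haa (a := a) (a' := a') ?_
  apply mul_right_cancel₀ (mul_ne_zero (hne a) (hne a'))
  have h1 := hrc a
  have h2 := hrc a'
  linear_combination (- (P0.comp (ho z0 a')) * Ψ.comp (ho z0 a')) * h1 +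
    (P0.comp (ho z0 a) * Ψ.comp (ho z0 a)) * h2 +
    (P0.comp (ho z0 a) * P0.comp (ho z0 a')) * h

end scale

end Pool.Agent.Y76.FG
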