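import Pool.Agent.Y192.FA.GDefsP
import Pool.Agent.W856.RG.ORB
import Pool.Agent.Y76.FG.Frac

/-!
Curves in the covers, the projective case: from the finiteness of pointed maps to rational curves.
-/

set_option autoImplicit false

namespace Pool.Agent.Y76.FG

open MvPolynomial FF Pool.Agent.W603.LV Pool.Agent.W603.PV Pool.Agent.Y192.OG
open Pool.Agent.W602.GT (val IsForm VarPts)
open Pool.Agent.W602.RG (PointedMaps HasValue PseudoGeomHyp)
open Pool.Agent.Y192.KC (Cov ZCov ZField Poly WH PseudoRational LineCurve Pt Same)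
open scoped LinearAlgebra.Projectivization

/-! ### Polynomials at the origin -/

section place

variable {c : Place ℂ (RatFunc ℂ)}

theorem reg_poly (hc : 0 < c.ord (RatFunc.X : RatFunc ℂ)) (q : Polynomial ℂ) :
    c.Reg (algebraMap (Polynomial ℂ) (RatFunc ℂ) q) := by
  induction q using Polynomial.induction_on' with
  | add p q hp hq => rw [map_add]; exact c.reg_add hp hq
  | monomial n a =>
    rw [← Polynomial.C_mul_X_pow_eq_monomial, map_mul, map_pow, RatFunc.algebraMap_X]
    refine c.reg_mul ?_ ?_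
    · have h : algebraMap (Polynomial ℂ) (RatFunc ℂ) (Polynomial.C a) =
          algebraMap ℂ (RatFunc ℂ) a := by
        rw [IsScalarTower.algebraMap_apply ℂ (Polynomial ℂ) (RatFunc ℂ)]
        rfl
      rw [h]
      exact c.reg_const a
    · right
      rw [c.ord_pow]
      positivity

theorem ord_pos (hc : 0 < c.ord (RatFunc.X : RatFunc ℂ)) {q : Polynomial ℂ} (hq : q ≠ 0)
    (h0 : q.eval 0 = 0) : 0 < c.ord (algebraMap (Polynomial ℂ) (RatFunc ℂ) q) := by
  obtain ⟨q1, rfl⟩ : Polynomial.X ∣ q := Polynomial.X_dvd_iff.2 (by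
    rw [Polynomial.coeff_zero_eq_eval_zero]
    exact h0)
  have hq1 : q1 ≠ 0 := right_ne_zero_of_mul hq
  have h1 : algebraMap (Polynomial ℂ) (RatFunc ℂ) q1 ≠ 0 := by
    rw [Ne, map_eq_zero_iff _ (IsFractionRing.injective (Polynomial ℂ) (RatFunc ℂ))]
    exact hq1
  rw [map_mul, RatFunc.algebraMap_X, c.ord_mul RatFunc.X_ne_zero h1]
  have h2 := (c.reg_iff h1).1 (reg_poly hc q1)
  omega

theorem ord_zero' (hc : 0 < c.ord (RatFunc.X : RatFunc ℂ)) {q : Polynomial ℂ}
    (h0 : q.eval 0 ≠ 0) : algebraMap (Polynomial ℂ) (RatFunc ℂ) q ≠ 0 ∧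
      c.ord (algebraMap (Polynomial ℂ) (RatFunc ℂ) q) = 0 := by
  have hq : q ≠ 0 := by
    rintro rfl
    exact h0 Polynomial.eval_zero
  have h1 : algebraMap (Polynomial ℂ) (RatFunc ℂ) q ≠ 0 := by
    rw [Ne, map_eq_zero_iff _ (IsFractionRing.injective (Polynomial ℂ) (RatFunc ℂ))]
    exact hq
  refine ⟨h1, ?_⟩
  have hC : algebraMap (Polynomial ℂ) (RatFunc ℂ) (Polynomial.C (q.eval 0)) =
      algebraMap ℂ (RatFunc ℂ) (q.eval 0) := by
    rw [IsScalarTower.algebraMap_apply ℂ (Polynomial ℂ) (RatFunc ℂ)]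
    rfl
  by_cases h2 : q - Polynomial.C (q.eval 0) = 0
  · rw [sub_eq_zero] at h2
    rw [h2, hC]
    exact c.ord_const h0
  · have h3 := ord_pos hc h2 (by rw [Polynomial.eval_sub, Polynomial.eval_C, sub_self])
    have h4 : algebraMap (Polynomial ℂ) (RatFunc ℂ) (q - Polynomial.C (q.eval 0)) ≠ 0 := by
      rw [Ne, map_eq_zero_iff _ (IsFractionRing.injective (Polynomial ℂ) (RatFunc ℂ))]
      exact h2
    have h5 : algebraMap ℂ (RatFunc ℂ) (q.eval 0) ≠ 0 := (map_ne_zero _).2 h0
    have h6 := c.ord_add_eq h5 h4 (by rw [c.ord_const h0]; exact h3)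
    rw [← hC, ← map_add, add_sub_cancel, hC, c.ord_const h0] at h6
    exact h6.2

end place

/-! ### The curves -/

section curve

variable {n r : ℕ} (p : Fin (n + 1) → Polynomial ℂ) (s : Fin r → Polynomial ℂ)

theorem eval_curve (A : Poly n r) (z : ℂ) :
    (aeval (Sum.elim p s) A : Polynomial ℂ).eval z =
      eval (Sum.elim (fun i => (p i).eval z) (fun j => (s j).eval z)) A := by
  have h1 : (Polynomial.evalRingHom z).comp
      (aeval (Sum.elim p s) : Poly n r →ₐ[ℂ] Polynomial ℂ).toRingHom =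
      eval (Sum.elim (fun i => (p i).eval z) (fun j => (s j).eval z)) := by
    apply MvPolynomial.ringHom_ext
    · intro a
      show (aeval (Sum.elim p s) (C a : Poly n r) : Polynomial ℂ).eval z = _
      rw [aeval_C, eval_C]
      exact Polynomial.eval_C
    · intro i
      show (aeval (Sum.elim p s) (X i : Poly n r) : Polynomial ℂ).eval z = _
      rw [aeval_X, eval_X]
      rcases i with i | i <;> rfl
  exact congrArg (fun φ : Poly n r →+* ℂ => φ A) h1

/-- The values of the forms at the points of the curve, after a homothety. -/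
theorem val_curve {N : ℕ} (q : Fin (N + 1) → Polynomial ℂ) (z0 a : ℂ)
    (H : MvPolynomial (Fin (N + 1)) ℂ) :
    val (fun i => algebraMap (Polynomial ℂ) (RatFunc ℂ) ((q i).comp (ho z0 a))) H =
      algebraMap (Polynomial ℂ) (RatFunc ℂ) ((aeval q H : Polynomial ℂ).comp (ho z0 a)) := by
  have h1 : (aeval (fun i => algebraMap (Polynomial ℂ) (RatFunc ℂ) ((q i).comp (ho z0 a))) :
      MvPolynomial (Fin (N + 1)) ℂ →ₐ[ℂ] RatFunc ℂ).toRingHom =
      ((algebraMap (Polynomial ℂ) (RatFunc ℂ)).comp (Polynomial.compRingHom (ho z0 a))).comp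
        (aeval q : MvPolynomial (Fin (N + 1)) ℂ →ₐ[ℂ] Polynomial ℂ).toRingHom := by
    apply MvPolynomial.ringHom_ext
    · intro b
      show aeval _ (C b : MvPolynomial (Fin (N + 1)) ℂ) =
        algebraMap (Polynomial ℂ) (RatFunc ℂ)
          ((aeval q (C b : MvPolynomial (Fin (N + 1)) ℂ) : Polynomial ℂ).comp (ho z0 a))
      rw [aeval_C, aeval_C]
      have h2 : (algebraMap ℂ (Polynomial ℂ) b).comp (ho z0 a) = algebraMap ℂ (Polynomial ℂ) b :=
        Polynomial.C_comp
      rw [h2, ← IsScalarTower.algebraMap_apply]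
    · intro i
      show aeval _ (X i : MvPolynomial (Fin (N + 1)) ℂ) =
        algebraMap (Polynomial ℂ) (RatFunc ℂ)
          ((aeval q (X i : MvPolynomial (Fin (N + 1)) ℂ) : Polynomial ℂ).comp (ho z0 a))
      rw [aeval_X, aeval_X]
  exact congrArg (fun φ : MvPolynomial (Fin (N + 1)) ℂ →+* RatFunc ℂ => φ H) h1

end curve

theorem two_pow_ne {l l' : ℕ} (h : l ≠ l') (e : ℕ) (he : 0 < e) :
    ((2 : ℂ) ^ l) ^ e ≠ ((2 : ℂ) ^ l') ^ e := by
  rw [← pow_mul, ← pow_mul]
  intro h1
  have h2 : (2 : ℕ) ^ (l * e) = 2 ^ (l' * e) := by exact_mod_cast h1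
  have h3 := Nat.pow_right_injective le_rfl h2
  exact h (Nat.eq_of_mul_eq_mul_right he h3)

theorem t_fpg : Pool.Agent.Y192.FA.St_fpg := by
  classical
  intro n r X m hm he hG L _ _ t w hZ N y hy hcoord hyp
  obtain ⟨G, ⟨dG, hGf⟩, hGy, hfin⟩ := hyp
  obtain ⟨i0, hi0⟩ := Function.ne_iff.1 hy
  have hi0 : y i0 ≠ 0 := hi0
  have ht0 : t 0 ≠ 0 := hZ.ne
  -- the rational map to the variety
  have hFr : ∀ z : L, Fr ℂ (Sum.elim (fun _ : Fin (n + 1) => 1) (X.toCov.wt m)) (Sum.elim t w) z := by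
    intro z
    have hz : z ∈ IntermediateField.adjoin ℂ (Set.range (fun i => t i / t 0) ∪
        Set.range (fun j => w j / t 0 ^ X.wt m j)) := by
      rw [hZ.gen]
      trivial
    refine fr_adjoin ?_ hz
    rintro _ (⟨i, rfl⟩ | ⟨j, rfl⟩)
    · refine ⟨1, MvPolynomial.X (.inl i), MvPolynomial.X (.inl 0), isWeightedHomogeneous_X _ _ _,
        isWeightedHomogeneous_X _ _ _, ?_, ?_⟩
      · rw [aeval_X]
        exact ht0
      · rw [aeval_X, aeval_X]
        rfl
    · refine ⟨X.toCov.wt m j, MvPolynomial.X (.inr j), MvPolynomial.X (.inl 0) ^ X.toCov.wt m j,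
        isWeightedHomogeneous_X _ _ _, ?_, ?_, ?_⟩
      · have h1 := (isWeightedHomogeneous_X ℂ (Sum.elim (fun _ : Fin (n + 1) => 1)
          (X.toCov.wt m)) (.inl 0)).pow (X.toCov.wt m j)
        rw [Sum.elim_inl, smul_eq_mul, mul_one] at h1
        exact h1
      · rw [map_pow, aeval_X]
        exact pow_ne_zero _ ht0
      · rw [map_pow, aeval_X, aeval_X]
        rfl
  obtain ⟨E, R, R0, hR, hR0, hR00, hRy⟩ := fr_common (fun i => y i / y i0) fun i => hFr _
  -- the inverse rational map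
  have hFy : ∀ z : L, Fr ℂ (1 : Fin (N + 1) → ℕ) y z := by
    intro z
    have hz : z ∈ Pool.Agent.W602.GT.coords ℂ y := by
      rw [hcoord]
      trivial
    refine fr_adjoin ?_ hz
    rintro _ ⟨i, j, hj, rfl⟩
    refine ⟨1, MvPolynomial.X i, MvPolynomial.X j, isWeightedHomogeneous_X _ _ _,
      isWeightedHomogeneous_X _ _ _, ?_, ?_⟩
    · rw [aeval_X]
      exact hj
    · rw [aeval_X, aeval_X]
  obtain ⟨h, P, Q, hP, hQ, hQ0, hPQ⟩ := fr_common (k := ℂ) (wt := (1 : Fin (N + 1) → ℕ)) (τ := y)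
    (Sum.elim (fun i : Fin (n + 1) => t i / t 0) (fun j => w j / t 0 ^ X.toCov.wt m j))
    fun i => hFy _
  have hP' : ∀ i, (P i).IsHomogeneous h := hP
  have hQ' : Q.IsHomogeneous h := hQ
  -- the values of the forms
  set κ : L := aeval (Sum.elim t w) R0 / y i0 with hκ
  have hκ0 : κ ≠ 0 := div_ne_zero hR00 hi0
  have hRκ : (fun i => aeval (Sum.elim t w) (R i)) = fun i => κ * y i := by
    funext i
    rw [← hRy i, hκ]
    ring
  have hval : ∀ {H : MvPolynomial (Fin (N + 1)) ℂ} {d : ℕ}, H.IsHomogeneous d →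
      aeval (Sum.elim t w) (aeval R H) = κ ^ d * aeval y H := by
    intro H d hH
    rw [← AlgHom.comp_apply, comp_aeval, hRκ, form_smul hH]
  refine ⟨MvPolynomial.X (.inl 0) * R i0 * aeval R G * aeval R Q, 1 + E + dG * E + h * E, ?_, ?_,
    ?_⟩
  · exact (((isWeightedHomogeneous_X _ _ _).mul (hR i0)).mul (wh_comp R hR hGf)).mul
      (wh_comp R hR hQ')
  · rw [map_mul, map_mul, map_mul, aeval_X, hval hGf, hval hQ']
    have h1 : aeval (Sum.elim t w) (R i0) = κ * y i0 := congrFun hRκ i0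
    rw [h1]
    exact mul_ne_zero (mul_ne_zero (mul_ne_zero ht0 (mul_ne_zero hκ0 hi0))
      (mul_ne_zero (pow_ne_zero _ hκ0) hGy)) (mul_ne_zero (pow_ne_zero _ hκ0) hQ0)
  intro p s hps z0
  by_contra hB
  rw [map_mul, map_mul, map_mul, eval_X] at hB
  have hBQ := right_ne_zero_of_mul hB
  have hBG := right_ne_zero_of_mul (left_ne_zero_of_mul hB)
  have hBR := right_ne_zero_of_mul (left_ne_zero_of_mul (left_ne_zero_of_mul hB))
  have hB0 : (p 0).eval z0 ≠ 0 := left_ne_zero_of_mul (left_ne_zero_of_mul (left_ne_zero_of_mul hB))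
  -- relations on the curve
  have hrel : ∀ (A : Poly n r) (D : ℕ), WH X.toCov m A D → aeval (Sum.elim t w) A = 0 →
      (aeval (Sum.elim p s) A : Polynomial ℂ) = 0 := by
    intro A D hA hA0
    apply Polynomial.funext
    intro z
    rw [eval_curve, Polynomial.eval_zero]
    exact (hps.mem z).2.1 A D hA hA0
  set q : Fin (N + 1) → Polynomial ℂ := fun i => aeval (Sum.elim p s) (R i) with hq
  have hqc : ∀ H : MvPolynomial (Fin (N + 1)) ℂ,
      (aeval (Sum.elim p s) (aeval R H) : Polynomial ℂ) = aeval q H := by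
    intro H
    rw [← AlgHom.comp_apply, comp_aeval]
  have hform : ∀ {H : MvPolynomial (Fin (N + 1)) ℂ}, IsForm H → val y H = 0 →
      (aeval q H : Polynomial ℂ) = 0 := by
    rintro H ⟨d, hH⟩ hH0
    rw [← hqc]
    refine hrel _ _ (wh_comp R hR hH) ?_
    rw [hval hH]
    have h1 : aeval y H = 0 := hH0
    rw [h1, mul_zero]
  have hPP : ∀ i, p 0 * aeval q (P (.inl i)) = p i * aeval q Q := by
    intro i
    have h1 := hrel (MvPolynomial.X (.inl 0) * aeval R (P (.inl i)) -
      MvPolynomial.X (.inl i) * aeval R Q) (1 + h * E) (by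
        refine Submodule.sub_mem (weightedHomogeneousSubmodule ℂ _ _) ?_ ?_
        · exact (isWeightedHomogeneous_X _ _ _).mul (wh_comp R hR (hP' _))
        · exact (isWeightedHomogeneous_X _ _ _).mul (wh_comp R hR hQ')) (by
        rw [map_sub, map_mul, map_mul, aeval_X, aeval_X, hval (hP' _), hval hQ', ← hPQ]
        show t 0 * (κ ^ h * (t i / t 0 * aeval y Q)) - t i * (κ ^ h * aeval y Q) = 0
        field_simp
        ring)
    rw [map_sub, map_mul, map_mul, aeval_X, aeval_X, hqc, hqc] at h1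
    exact sub_eq_zero.1 h1
  have hSS : ∀ j, p 0 ^ X.toCov.wt m j * aeval q (P (.inr j)) = s j * aeval q Q := by
    intro j
    have h1 := hrel (MvPolynomial.X (.inl 0) ^ X.toCov.wt m j * aeval R (P (.inr j)) -
      MvPolynomial.X (.inr j) * aeval R Q) (X.toCov.wt m j + h * E) (by
        refine Submodule.sub_mem (weightedHomogeneousSubmodule ℂ _ _) ?_ ?_
        · have h2 := (isWeightedHomogeneous_X ℂ (Sum.elim (fun _ : Fin (n + 1) => 1)
            (X.toCov.wt m)) (.inl 0)).pow (X.toCov.wt m j)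
          rw [Sum.elim_inl, smul_eq_mul, mul_one] at h2
          exact h2.mul (wh_comp R hR (hP' _))
        · exact (isWeightedHomogeneous_X _ _ _).mul (wh_comp R hR hQ')) (by
        rw [map_sub, map_mul, map_mul, map_pow, aeval_X, aeval_X, hval (hP' _), hval hQ', ← hPQ]
        show t 0 ^ X.toCov.wt m j * (κ ^ h * (w j / t 0 ^ X.toCov.wt m j * aeval y Q)) -
          w j * (κ ^ h * aeval y Q) = 0
        field_simp
        ring)
    rw [map_sub, map_mul, map_mul, map_pow, aeval_X, aeval_X, hqc, hqc] at h1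
    exact sub_eq_zero.1 h1
  -- values at the centre
  have hqz : ∀ H : MvPolynomial (Fin (N + 1)) ℂ, (aeval q H : Polynomial ℂ).eval z0 =
      eval (Sum.elim (fun i => (p i).eval z0) (fun j => (s j).eval z0)) (aeval R H) := by
    intro H
    rw [← hqc, eval_curve]
  have hQz : (aeval q Q : Polynomial ℂ).eval z0 ≠ 0 := by
    rw [hqz]
    exact hBQ
  have hqi0 : (q i0).eval z0 ≠ 0 := by
    rw [hq]
    show (aeval (Sum.elim p s) (R i0) : Polynomial ℂ).eval z0 ≠ 0
    rw [eval_curve]
    exact hBR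
  set x : Fin (N + 1) → ℂ := fun i => (q i).eval z0 with hx
  have hxv : ∀ H : MvPolynomial (Fin (N + 1)) ℂ, val x H = (aeval q H : Polynomial ℂ).eval z0 := by
    intro H
    have h1 : (aeval x : MvPolynomial (Fin (N + 1)) ℂ →ₐ[ℂ] ℂ).toRingHom =
        (Polynomial.evalRingHom z0).comp
          (aeval q : MvPolynomial (Fin (N + 1)) ℂ →ₐ[ℂ] Polynomial ℂ).toRingHom := by
      apply MvPolynomial.ringHom_ext
      · intro b
        show aeval x (C b : MvPolynomial (Fin (N + 1)) ℂ) =
          (aeval q (C b : MvPolynomial (Fin (N + 1)) ℂ) : Polynomial ℂ).eval z0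
        rw [aeval_C, aeval_C]
        exact Polynomial.eval_C.symm
      · intro i
        show aeval x (MvPolynomial.X i : MvPolynomial (Fin (N + 1)) ℂ) =
          (aeval q (MvPolynomial.X i : MvPolynomial (Fin (N + 1)) ℂ) : Polynomial ℂ).eval z0
        rw [aeval_X, aeval_X]
    exact congrArg (fun φ : MvPolynomial (Fin (N + 1)) ℂ →+* ℂ => φ H) h1
  have hxV : x ∈ VarPts ℂ y := by
    refine ⟨fun h0 => hqi0 (congrFun h0 i0), fun H hH hH0 => ?_⟩
    rw [hxv, hform hH hH0, Polynomial.eval_zero]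
  have hxG : val x G ≠ 0 := by
    rw [hxv, hqz]
    exact hBG
  -- the family of maps
  obtain ⟨c, hc⟩ := Pool.Agent.W856.RG.Orb.exists_zero (k := ℂ) RatFunc.transcendental_X
  let f : ℕ → Fin (N + 1) → RatFunc ℂ := fun l i =>
    algebraMap (Polynomial ℂ) (RatFunc ℂ) ((q i).comp (ho z0 (2 ^ l)))
  have hfi0 : ∀ l, f l i0 ≠ 0 ∧ c.ord (f l i0) = 0 := by
    intro l
    refine ord_zero' hc ?_
    rw [comp_eval_zero]
    exact hqi0
  have hf0 : ∀ l, f l ≠ 0 := fun l h0 => (hfi0 l).1 (congrFun h0 i0)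
  refine Set.infinite_of_injective_forall_mem (s := PointedMaps y c x)
    (f := fun l : ℕ => Projectivization.mk (RatFunc ℂ) (f l) (hf0 l)) ?_ ?_
    (hfin (RatFunc ℂ) c x hxV hxG)
  · intro l l' hll
    by_contra hne
    rw [Projectivization.mk_eq_mk_iff'] at hll
    obtain ⟨a, ha⟩ := hll
    have ha' : f l = fun i => a * f l' i := by
      funext i
      exact (congrFun ha i).symm
    have hsc : ∀ {H : MvPolynomial (Fin (N + 1)) ℂ}, H.IsHomogeneous h →
        val (f l) H = a ^ h * val (f l') H := by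
      intro H hH
      rw [ha']
      exact form_smul hH _ _
    have hid : ∀ i, (aeval q (P i) : Polynomial ℂ).comp (ho z0 (2 ^ l)) *
        (aeval q Q : Polynomial ℂ).comp (ho z0 (2 ^ l')) =
        (aeval q (P i) : Polynomial ℂ).comp (ho z0 (2 ^ l')) *
          (aeval q Q : Polynomial ℂ).comp (ho z0 (2 ^ l)) := by
      intro i
      apply IsFractionRing.injective (Polynomial ℂ) (RatFunc ℂ)
      rw [map_mul, map_mul, ← val_curve, ← val_curve, ← val_curve, ← val_curve]
      have h1 := hsc (hP' i)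
      have h2 := hsc hQ'
      show val (f l) (P i) * val (f l') Q = val (f l') (P i) * val (f l) Q
      rw [h1, h2]
      ring
    have haa := two_pow_ne hne
    have h1 : ∀ i, ∃ c : ℂ, p i = Polynomial.C c * p 0 := fun i =>
      scale' hB0 hQz haa (hPP i) (hid (.inl i))
    have h2 : ∀ j, ∃ c : ℂ, s j = Polynomial.C c * p 0 ^ X.toCov.wt m j := fun j =>
      scale' (by
        rw [Polynomial.eval_pow]
        exact pow_ne_zero _ hB0) hQz haa (hSS j) (hid (.inr j))
    choose ci hci using h1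
    choose di hdi using h2
    have hp0 : ∀ z, (p 0).eval z ≠ 0 := by
      intro z h0
      apply (hps.mem z).1
      funext i
      show (p i).eval z = 0
      rw [hci i, Polynomial.eval_mul, h0, mul_zero]
    obtain ⟨z, z', hzz⟩ := hps.nonconst
    apply hzz
    refine ⟨(p 0).eval z' / (p 0).eval z, div_ne_zero (hp0 z') (hp0 z), fun i => ?_, fun j => ?_⟩
    · show (p i).eval z' = _ * (p i).eval z
      rw [hci i, Polynomial.eval_mul, Polynomial.eval_mul, Polynomial.eval_C, Polynomial.eval_C]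
      have := hp0 z
      field_simp
    · show (s j).eval z' = _ * (s j).eval z
      rw [hdi j, Polynomial.eval_mul, Polynomial.eval_mul, Polynomial.eval_C, Polynomial.eval_C,
        Polynomial.eval_pow, Polynomial.eval_pow, div_pow]
      have := pow_ne_zero (X.toCov.wt m j) (hp0 z)
      field_simp
  · intro l
    refine ⟨f l, hf0 l, fun H hH hH0 => ?_, ?_, rfl⟩
    · show val (f l) H = 0
      have h1 := val_curve q z0 (2 ^ l) H
      rw [hform hH hH0, Polynomial.zero_comp, map_zero] at h1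
      exact h1
    · intro i j
      have h1 : algebraMap ℂ (RatFunc ℂ) (x i) * f l j - algebraMap ℂ (RatFunc ℂ) (x j) * f l i =
          algebraMap (Polynomial ℂ) (RatFunc ℂ) (Polynomial.C (x i) * (q j).comp (ho z0 (2 ^ l)) -
            Polynomial.C (x j) * (q i).comp (ho z0 (2 ^ l))) := by
        have hC : ∀ b : ℂ, algebraMap (Polynomial ℂ) (RatFunc ℂ) (Polynomial.C b) =
            algebraMap ℂ (RatFunc ℂ) b := by
          intro b
          rw [IsScalarTower.algebraMap_apply ℂ (Polynomial ℂ) (RatFunc ℂ)]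
          rfl
        rw [map_sub, map_mul, map_mul, hC, hC]
      rw [h1]
      by_cases h2 : Polynomial.C (x i) * (q j).comp (ho z0 (2 ^ l)) -
            Polynomial.C (x j) * (q i).comp (ho z0 (2 ^ l)) = 0
      · left
        rw [h2, map_zero]
      · right
        have h3 := ord_pos hc h2 (by
          rw [Polynomial.eval_sub, Polynomial.eval_mul, Polynomial.eval_mul, Polynomial.eval_C,
            Polynomial.eval_C, comp_eval_zero, comp_eval_zero, hx]
          ring)
        have h4 : pord c (f l) ≤ c.ord (f l i0) := pord_le c (hfi0 l).1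
        rw [(hfi0 l).2] at h4
        exact lt_of_le_of_lt h4 h3

end Pool.Agent.Y76.FG
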