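import Mathlib

/-!
# Job FG-SD of project FG (helper731): special derivations
-/

set_option autoImplicit false
set_option linter.unusedSectionVars false
set_option linter.unusedVariables false

namespace Pool.Agent.Y76.FG

open MvPolynomial

section ext

variable {L K : Type} [Field L] [Field K] [Algebra L K]

/-- the algebra structure given by a family of elements -/
theorem alg_of_basis {ι : Type} (t : ι → K) (ht : IsTranscendenceBasis L t) :
    letI : Algebra (MvPolynomial ι L) K :=
      ((aeval t : MvPolynomial ι L →ₐ[L] K) : MvPolynomial ι L →+* K).toAlgebra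
    Algebra.IsAlgebraic (MvPolynomial ι L) K := by
  let _ : Algebra (MvPolynomial ι L) K :=
    ((aeval t : MvPolynomial ι L →ₐ[L] K) : MvPolynomial ι L →+* K).toAlgebra
  have h1 := ht.isAlgebraic
  refine Algebra.IsAlgebraic.of_ringHom_of_comp_eq
    (f := (ht.1.aevalEquiv : MvPolynomial ι L ≃ₐ[L] Algebra.adjoin L (Set.range t)))
    (g := RingHom.id K) ?_ Function.injective_id ?_
  · exact ht.1.aevalEquiv.surjective
  · ext x
    · simp [RingHom.algebraMap_toAlgebra]
    · simp [RingHom.algebraMap_toAlgebra]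

variable [CharZero L]

/-- derivations can be prescribed on a transcendence basis -/
theorem exists_der {ι : Type} (t : ι → K) (ht : IsTranscendenceBasis L t) (c : ι → K) :
    ∃ D : Derivation L K K, ∀ i, D (t i) = c i := by
  have hinj : Function.Injective (aeval t : MvPolynomial ι L →ₐ[L] K) :=
    ht.1
  have halg := alg_of_basis t ht
  let _ : Algebra (MvPolynomial ι L) K :=
    ((aeval t : MvPolynomial ι L →ₐ[L] K) : MvPolynomial ι L →+* K).toAlgebra
  have hst : IsScalarTower L (MvPolynomial ι L) K := IsScalarTower.of_algebraMap_eq' (by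
    ext c
    simp [RingHom.algebraMap_toAlgebra])
  have hfs : FaithfulSMul (MvPolynomial ι L) K := (faithfulSMul_iff_algebraMap_injective _ _).2 hinj
  let _ : Algebra (FractionRing (MvPolynomial ι L)) K := FractionRing.liftAlgebra (MvPolynomial ι L) K
  have hst2 : IsScalarTower (MvPolynomial ι L) (FractionRing (MvPolynomial ι L)) K := inferInstance
  have halg2 : Algebra.IsAlgebraic (FractionRing (MvPolynomial ι L)) K :=
    (IsFractionRing.comap_isAlgebraic_iff (A := MvPolynomial ι L)
      (K := FractionRing (MvPolynomial ι L)) (C := K)).1 halg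
  have hchar : CharZero (FractionRing (MvPolynomial ι L)) := inferInstance
  have hsep : Algebra.IsSeparable (FractionRing (MvPolynomial ι L)) K := inferInstance
  have h1 : Algebra.FormallyEtale (FractionRing (MvPolynomial ι L)) K :=
    Algebra.FormallyEtale.of_isSeparable _ _
  have h2 : Algebra.FormallyEtale (MvPolynomial ι L) (FractionRing (MvPolynomial ι L)) :=
    Algebra.FormallyEtale.of_isLocalization (nonZeroDivisors (MvPolynomial ι L))
  have h3 : Algebra.FormallyEtale (MvPolynomial ι L) K :=
    Algebra.FormallyEtale.comp (MvPolynomial ι L) (FractionRing (MvPolynomial ι L)) K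
  let e := KaehlerDifferential.tensorKaehlerEquivOfFormallyEtale L (MvPolynomial ι L) K
  let d : Derivation L (MvPolynomial ι L) K := MvPolynomial.mkDerivation L c
  let l : Ω[MvPolynomial ι L⁄L] →ₗ[MvPolynomial ι L] K := d.liftKaehlerDifferential
  let Λ : Ω[K⁄L] →ₗ[K] K := (LinearMap.liftBaseChange K l).comp e.symm.toLinearMap
  let D : Derivation L K K := Λ.compDer (KaehlerDifferential.D L K)
  refine ⟨D, fun i => ?_⟩
  have h5 : t i = algebraMap (MvPolynomial ι L) K (X i) := by
    simp [RingHom.algebraMap_toAlgebra]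
  change Λ (KaehlerDifferential.D L K (t i)) = c i
  change LinearMap.liftBaseChange K l (e.symm (KaehlerDifferential.D L K (t i))) = c i
  rw [h5, KaehlerDifferential.tensorKaehlerEquivOfFormallyEtale_symm_D_algebraMap]
  simp [l, d]

/-- derivations dual to independent elements -/
theorem exists_dual_der {m : ℕ} (y : Fin m → K) (hy : AlgebraicIndependent L y) :
    ∃ δ : Fin m → Derivation L K K, ∀ i k, δ i (y k) = if i = k then 1 else 0 := by
  classical
  obtain ⟨t, ht1, ht2⟩ := exists_isTranscendenceBasis_superset (AlgebraicIndependent.coe_range hy)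
  choose δ hδ using fun i : Fin m => exists_der (fun z : t => (z : K)) ht2
    (fun z => if (z : K) = y i then 1 else 0)
  refine ⟨δ, fun i k => ?_⟩
  have h1 := hδ i ⟨y k, ht1 ⟨k, rfl⟩⟩
  simp only at h1
  rw [h1]
  by_cases h : i = k
  · subst h
    simp
  · rw [if_neg, if_neg h]
    intro h2
    exact h (hy.injective h2).symm

end ext

section special

variable {F K : Type} [Field F] [Field K] [Algebra F K] (E : IntermediateField F K) {t : ℕ}
  (u : Fin t → K)

/-- the value of a monomial -/
noncomputable def mo (s : Fin t →₀ ℕ) : K := ∏ j, u j ^ s j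

theorem mo_add (s s' : Fin t →₀ ℕ) : mo u (s + s') = mo u s * mo u s' := by
  unfold mo
  rw [← Finset.prod_mul_distrib]
  refine Finset.prod_congr rfl fun j _ => ?_
  rw [Finsupp.add_apply, pow_add]

theorem mo_ne (hu : ∀ j, u j ≠ 0) (s : Fin t →₀ ℕ) : mo u s ≠ 0 :=
  Finset.prod_ne_zero_iff.2 fun j _ => pow_ne_zero _ (hu j)

/-- the logarithmic coefficient -/
noncomputable def vv (d : Derivation F K K) (s : Fin t →₀ ℕ) (a : E) : K :=
  d ((a : K) * mo u s) / mo u s

theorem vv_add (d : Derivation F K K) (s : Fin t →₀ ℕ) (a b : E) :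
    vv E u d s (a + b) = vv E u d s a + vv E u d s b := by
  unfold vv
  push_cast
  rw [add_mul, map_add, add_div]

theorem vv_zero (d : Derivation F K K) (s : Fin t →₀ ℕ) : vv E u d s 0 = 0 := by
  unfold vv
  rw [ZeroMemClass.coe_zero, zero_mul, map_zero, zero_div]

theorem vv_smul (d : Derivation F K K) (s : Fin t →₀ ℕ) (r : F) (a : E) :
    vv E u d s (r • a) = r • vv E u d s a := by
  unfold vv
  have h1 : ((r • a : E) : K) = r • (a : K) := rfl
  rw [h1, smul_mul_assoc, Derivation.map_smul, smul_div_assoc]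

theorem vv_mul (hu : ∀ j, u j ≠ 0) (d : Derivation F K K) (s s' : Fin t →₀ ℕ) (a b : E) :
    vv E u d (s + s') (a * b) = (a : K) * vv E u d s' b + (b : K) * vv E u d s a := by
  unfold vv
  have h1 : (((a * b : E) : K)) * mo u (s + s') = ((a : K) * mo u s) * ((b : K) * mo u s') := by
    rw [mo_add]
    push_cast
    ring
  rw [h1, Derivation.leibniz, mo_add]
  have e1 := mo_ne u hu s
  have e2 := mo_ne u hu s'
  rw [smul_eq_mul, smul_eq_mul]
  field_simp

variable (ψ : K →ₗ[E] E) (d : Derivation F K K)

/-- the special derivation, as a function -/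
noncomputable def sp (f : MvPolynomial (Fin t) E) : MvPolynomial (Fin t) E :=
  ∑ s ∈ f.support, monomial s (ψ (vv E u d s (coeff s f)))

theorem coeff_sp (f : MvPolynomial (Fin t) E) (s : Fin t →₀ ℕ) :
    coeff s (sp E u ψ d f) = ψ (vv E u d s (coeff s f)) := by
  classical
  unfold sp
  rw [coeff_sum]
  simp only [coeff_monomial]
  rw [Finset.sum_ite_eq' f.support s]
  split_ifs with h
  · rfl
  · rw [notMem_support_iff.1 h, vv_zero, map_zero]

theorem sp_add (f g : MvPolynomial (Fin t) E) :
    sp E u ψ d (f + g) = sp E u ψ d f + sp E u ψ d g := by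
  ext s
  rw [coeff_sp, coeff_add, coeff_add, coeff_sp, coeff_sp, vv_add, map_add]

theorem sp_smul (r : F) (f : MvPolynomial (Fin t) E) :
    sp E u ψ d (r • f) = r • sp E u ψ d f := by
  ext s
  rw [coeff_sp, coeff_smul, coeff_smul, coeff_sp, vv_smul]
  congr 1
  have : r • vv E u d s (coeff s f) = (algebraMap F E r) • vv E u d s (coeff s f) := by
    rw [algebraMap_smul]
  rw [this, map_smul, smul_eq_mul, Algebra.smul_def]

theorem sp_monomial (s : Fin t →₀ ℕ) (a : E) :
    sp E u ψ d (monomial s a) = monomial s (ψ (vv E u d s a)) := by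
  classical
  ext s'
  rw [coeff_sp, coeff_monomial, coeff_monomial]
  split_ifs with h
  · subst h; rfl
  · rw [vv_zero, map_zero]

theorem sp_mul (hu : ∀ j, u j ≠ 0) (f g : MvPolynomial (Fin t) E) :
    sp E u ψ d (f * g) = f * sp E u ψ d g + g * sp E u ψ d f := by
  induction f using MvPolynomial.induction_on' with
  | monomial s a =>
    induction g using MvPolynomial.induction_on' with
    | monomial s' b =>
      rw [monomial_mul, sp_monomial, sp_monomial, sp_monomial, monomial_mul, monomial_mul,
        vv_mul E u hu, add_comm s' s, ← map_add]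
      congr 1
      have e1 : (a : K) * vv E u d s' b = a • vv E u d s' b := rfl
      have e2 : (b : K) * vv E u d s a = b • vv E u d s a := rfl
      rw [map_add, e1, e2, map_smul, map_smul, smul_eq_mul, smul_eq_mul]
    | add p q hp hq =>
      rw [mul_add, sp_add, hp, hq, sp_add]
      ring
  | add p q hp hq =>
    rw [add_mul, sp_add, hp, hq, sp_add]
    ring

/-- the special derivation -/
noncomputable def spD (hu : ∀ j, u j ≠ 0) :
    Derivation F (MvPolynomial (Fin t) E) (MvPolynomial (Fin t) E) :=
  Derivation.mk'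
    { toFun := sp E u ψ d
      map_add' := sp_add E u ψ d
      map_smul' := fun r f => sp_smul E u ψ d r f }
    (fun f g => by
      show sp E u ψ d (f * g) = f • sp E u ψ d g + g • sp E u ψ d f
      rw [sp_mul E u ψ d hu, smul_eq_mul, smul_eq_mul])

theorem spD_apply (hu : ∀ j, u j ≠ 0) (f : MvPolynomial (Fin t) E) :
    spD E u ψ d hu f = sp E u ψ d f := rfl

theorem aeval_sum_mo (f : MvPolynomial (Fin t) E) :
    aeval u f = ∑ s ∈ f.support, ((coeff s f : E) : K) * mo u s := by
  rw [aeval_def, eval₂_eq']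
  rfl

theorem d_aeval (hu : ∀ j, u j ≠ 0) (f : MvPolynomial (Fin t) E) :
    d (aeval u f) = ∑ s ∈ f.support, vv E u d s (coeff s f) * mo u s := by
  rw [aeval_sum_mo, map_sum]
  refine Finset.sum_congr rfl fun s _ => ?_
  unfold vv
  rw [div_mul_cancel₀ _ (mo_ne u hu s)]

theorem aeval_sp (f : MvPolynomial (Fin t) E) :
    aeval u (sp E u ψ d f) = ∑ s ∈ f.support, (ψ (vv E u d s (coeff s f)) : K) * mo u s := by
  unfold sp
  rw [map_sum]
  refine Finset.sum_congr rfl fun s _ => ?_
  rw [aeval_monomial, Finsupp.prod_fintype _ _ (by simp)]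
  rfl

/-- the expansion of a derivation in special derivations -/
theorem expansion (hu : ∀ j, u j ≠ 0) {M : ℕ} (f : Fin M → MvPolynomial (Fin t) E) :
    ∃ (p : ℕ) (b : Fin p → K) (ψ : Fin p → (K →ₗ[E] E)), ∀ c,
      d (aeval u (f c)) = ∑ k, b k * aeval u (sp E u (ψ k) d (f c)) := by
  classical
  set S : Set K := ⋃ c : Fin M, (fun s => vv E u d s (coeff s (f c))) '' ((f c).support : Set _)
    with hS
  have hSf : S.Finite := by
    rw [hS]
    exact Set.finite_iUnion fun c => ((f c).support.finite_toSet).image _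
  set T : Submodule E K := Submodule.span E S with hT
  have : FiniteDimensional E T := FiniteDimensional.span_of_finite E hSf
  let B := Module.finBasis E T
  have hext : ∀ k, ∃ g : K →ₗ[E] E, g.comp T.subtype = B.coord k := fun k =>
    LinearMap.exists_extend _
  choose ψ hψ using hext
  refine ⟨_, fun k => (B k : K), ψ, fun c => ?_⟩
  have hv : ∀ s ∈ (f c).support, vv E u d s (coeff s (f c)) =
      ∑ k, (B k : K) * (ψ k (vv E u d s (coeff s (f c))) : K) := by
    intro s hs
    have hmem : vv E u d s (coeff s (f c)) ∈ T := by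
      apply Submodule.subset_span
      rw [hS, Set.mem_iUnion]
      exact ⟨c, s, hs, rfl⟩
    have h1 := B.sum_repr ⟨_, hmem⟩
    have h2 := congrArg (fun x : T => (x : K)) h1
    simp only [Submodule.coe_sum, Submodule.coe_smul] at h2
    conv_lhs => rw [← h2]
    refine Finset.sum_congr rfl fun k _ => ?_
    have h3 : ψ k (vv E u d s (coeff s (f c))) = B.repr ⟨_, hmem⟩ k := by
      have := congrArg (fun g => g ⟨_, hmem⟩) (hψ k)
      simpa using this
    rw [h3, mul_comm]
    rfl
  rw [d_aeval E u d hu]
  simp only [aeval_sp, Finset.mul_sum]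
  rw [Finset.sum_comm]
  refine Finset.sum_congr rfl fun s hs => ?_
  conv_lhs => rw [hv s hs]
  rw [Finset.sum_mul]
  refine Finset.sum_congr rfl fun k _ => ?_
  ring

/-- existence of sufficiently many special derivations -/
theorem sd_core [CharZero F] (hu0 : AlgebraicIndependent E u) {N M : ℕ}
    (y : Fin M → MvPolynomial (Fin t) E) (c : Fin (N + 1) → Fin M) (hz : aeval u (y (c 0)) ≠ 0)
    (hx : AlgebraicIndependent F (fun ρ : Fin N => aeval u (y (c ρ.succ)) / aeval u (y (c 0)))) :
    ∃ δ : Fin N → Derivation F (MvPolynomial (Fin t) E) (MvPolynomial (Fin t) E),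
      (∀ ρ, ∀ (s : Fin t →₀ ℕ) (a : E), ∃ b : E, δ ρ (monomial s a) = monomial s b) ∧
      LinearIndependent K (Fin.cons (α := fun _ => Fin M → K) (fun a => aeval u (y a))
        (fun (ρ : Fin N) (a : Fin M) => aeval u (δ ρ (y a)))) := by
  classical
  have hu : ∀ j, u j ≠ 0 := fun j => hu0.ne_zero j
  set z : K := aeval u (y (c 0)) with hzd
  set x : Fin N → K := fun ρ => aeval u (y (c ρ.succ)) / z with hxd
  obtain ⟨D, hD⟩ := exists_dual_der x hx
  set v0 : Fin M → K := fun a => aeval u (y a) with hv0
  set w : Fin N → Fin M → K := fun σ a => D σ (aeval u (y a)) with hw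
  set S : Set (Fin M → K) := {w | ∃ δ : Derivation F (MvPolynomial (Fin t) E)
    (MvPolynomial (Fin t) E), (∀ (s : Fin t →₀ ℕ) (a : E), ∃ b : E,
      δ (monomial s a) = monomial s b) ∧ w = fun a => aeval u (δ (y a))} with hS
  have hxz : ∀ ρ : Fin N, aeval u (y (c ρ.succ)) = x ρ * z := fun ρ => by
    rw [hxd]
    exact (div_mul_cancel₀ _ hz).symm
  have hli : LinearIndependent K (Fin.cons (α := fun _ => Fin M → K) v0 w) := by
    rw [Fintype.linearIndependent_iff]
    intro g hg
    rw [Fin.sum_univ_succ] at hg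
    simp only [Fin.cons_zero, Fin.cons_succ] at hg
    have h0 : g 0 * z + ∑ σ : Fin N, g σ.succ * D σ z = 0 := by
      have := congrFun hg (c 0)
      simpa [hv0, hw, Finset.sum_apply] using this
    have h1 : ∀ ρ : Fin N, g ρ.succ = 0 := by
      intro ρ
      have h2 : g 0 * (x ρ * z) + ∑ σ : Fin N, g σ.succ * D σ (x ρ * z) = 0 := by
        have := congrFun hg (c ρ.succ)
        simp only [hv0, hw, Pi.add_apply, Pi.smul_apply, Finset.sum_apply, Pi.zero_apply,
          smul_eq_mul, hxz] at this
        exact this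
      have h3 : ∀ σ, D σ (x ρ * z) = x ρ * D σ z + z * (if σ = ρ then 1 else 0) := by
        intro σ
        rw [Derivation.leibniz, hD σ ρ, smul_eq_mul, smul_eq_mul]
      simp only [h3, mul_add, Finset.sum_add_distrib] at h2
      have h4 : ∑ σ : Fin N, g σ.succ * (z * (if σ = ρ then 1 else 0)) = g ρ.succ * z := by
        rw [Finset.sum_eq_single ρ]
        · simp
        · intro σ _ hσ
          simp [hσ]
        · simp
      have h5 : ∑ σ : Fin N, g σ.succ * (x ρ * D σ z) = x ρ * ∑ σ : Fin N, g σ.succ * D σ z := by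
        rw [Finset.mul_sum]
        refine Finset.sum_congr rfl fun σ _ => ?_
        ring
      rw [h4, h5] at h2
      have h6 : g ρ.succ * z = 0 := by
        linear_combination h2 - x ρ * h0
      exact (mul_eq_zero.1 h6).resolve_right hz
    intro i
    refine Fin.cases ?_ h1 i
    simp only [h1, zero_mul, Finset.sum_const_zero, add_zero] at h0
    exact (mul_eq_zero.1 h0).resolve_right hz
  have hwS : ∀ σ, w σ ∈ Submodule.span K S := by
    intro σ
    obtain ⟨p, b, ψ, hb⟩ := expansion E u (D σ) hu y
    have e : w σ = ∑ k, b k • (fun a => aeval u (spD E u (ψ k) (D σ) hu (y a))) := by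
      funext a
      rw [Finset.sum_apply]
      simp only [hw, hb a, Pi.smul_apply, smul_eq_mul, spD_apply]
    rw [e]
    refine Submodule.sum_mem _ fun k _ => Submodule.smul_mem _ _ (Submodule.subset_span ?_)
    refine ⟨spD E u (ψ k) (D σ) hu, fun s a => ⟨ψ k (vv E u (D σ) s a), ?_⟩, rfl⟩
    rw [spD_apply, sp_monomial]
  have hv00 : v0 ≠ 0 := by
    have := hli.ne_zero 0
    simpa using this
  have hs1 : LinearIndepOn K id ({v0} : Set (Fin M → K)) :=
    LinearIndepOn.singleton (v := id) hv00
  obtain ⟨b, hbT, hvb, hTb, hbli⟩ := exists_linearIndepOn_extension hs1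
    (show ({v0} : Set (Fin M → K)) ⊆ insert v0 S by
      intro a ha
      exact Or.inl ha)
  simp only [id, Set.image_id'] at hTb
  have hbli' : LinearIndependent K (fun a : b => (a : Fin M → K)) := hbli
  have hbf : b.Finite := hbli'.setFinite
  have hmem : ∀ i, (Fin.cons (α := fun _ => Fin M → K) v0 w) i ∈ Submodule.span K b := by
    have hle : Submodule.span K S ≤ Submodule.span K b := by
      rw [Submodule.span_le]
      intro a ha
      exact hTb (Or.inr ha)
    intro i
    refine Fin.cases ?_ (fun σ => ?_) i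
    · rw [Fin.cons_zero]
      exact Submodule.subset_span (hvb rfl)
    · rw [Fin.cons_succ]
      exact hle (hwS σ)
  have hcard : N + 1 ≤ hbf.toFinset.card := by
    have h1 : LinearIndependent K (fun i => (⟨_, hmem i⟩ : Submodule.span K b)) :=
      LinearIndependent.of_comp (Submodule.span K b).subtype hli
    have h2 := h1.fintype_card_le_finrank
    rw [Fintype.card_fin] at h2
    refine h2.trans ?_
    have : Fintype b := hbf.fintype
    rw [finrank_span_set_eq_card hbli']
    rw [Set.Finite.toFinset_eq_toFinset]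
  have hcard2 : N ≤ (hbf.toFinset.erase v0).card := by
    rw [Finset.card_erase_of_mem (by rw [Set.Finite.mem_toFinset]; exact hvb rfl)]
    omega
  obtain ⟨g⟩ : Nonempty (Fin N ↪ (hbf.toFinset.erase v0)) := by
    apply Function.Embedding.nonempty_of_card_le
    rw [Fintype.card_fin, Fintype.card_coe]
    exact hcard2
  have hg1 : ∀ ρ, (g ρ : Fin M → K) ≠ v0 := fun ρ => Finset.ne_of_mem_erase (g ρ).2
  have hg2 : ∀ ρ, (g ρ : Fin M → K) ∈ b := fun ρ => by
    have := Finset.mem_of_mem_erase (g ρ).2
    rwa [Set.Finite.mem_toFinset] at this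
  have hg3 : ∀ ρ, (g ρ : Fin M → K) ∈ S := fun ρ => (hbT (hg2 ρ)).resolve_left (hg1 ρ)
  choose δ hδ1 hδ2 using hg3
  refine ⟨δ, hδ1, ?_⟩
  have hfam : (Fin.cons (α := fun _ => Fin M → K) v0
      (fun (ρ : Fin N) (a : Fin M) => aeval u (δ ρ (y a)))) = fun i : Fin (N + 1) =>
        ((Fin.cons (α := fun _ => b) ⟨v0, hvb rfl⟩ (fun ρ => ⟨_, hg2 ρ⟩) i : b) : Fin M → K) := by
    funext i
    refine Fin.cases ?_ (fun ρ => ?_) i
    · rfl
    · rw [Fin.cons_succ, Fin.cons_succ]
      exact (hδ2 ρ).symm
  rw [hfam]
  refine hbli'.comp _ ?_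
  intro i j
  refine Fin.cases ?_ (fun ρ => ?_) i <;> refine Fin.cases ?_ (fun ρ' => ?_) j
  · intro _; rfl
  · intro h
    rw [Fin.cons_zero, Fin.cons_succ] at h
    exact absurd (congrArg Subtype.val h).symm (hg1 ρ')
  · intro h
    rw [Fin.cons_zero, Fin.cons_succ] at h
    exact absurd (congrArg Subtype.val h) (hg1 ρ)
  · intro h
    rw [Fin.cons_succ, Fin.cons_succ] at h
    have h1 : (g ρ : Fin M → K) = g ρ' := congrArg (fun q : b => (q : Fin M → K)) h
    rw [g.injective (Subtype.ext h1)]

end special

end Pool.Agent.Y76.FG
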