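import Pool.Agent.Y731.FG.Stm
import Pool.Agent.Y76.FG.SdCore

/-!
# Job FG-SD of project FG (helper731): existence of sufficiently many special derivations
-/

set_option autoImplicit false

namespace Pool.Agent.Y76.FG

open MvPolynomial Pool.Agent.Y731.FG

theorem sd : S_SD := by
  intro F K _ _ _ _ E t u hu N M y c hz hx
  obtain ⟨δ, h1, h2⟩ := sd_core E u hu y c hz hx
  refine ⟨δ, h1, ?_⟩
  have e : (fun (ρ : Fin (N + 1)) (a : Fin M) => tauM u y (fun ρ' => δ ρ') ρ a) =
      Fin.cons (α := fun _ => Fin M → K) (fun a => aeval u (y a))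
        (fun (ρ : Fin N) (a : Fin M) => aeval u (δ ρ (y a))) := by
    funext ρ
    refine Fin.cases ?_ (fun σ => ?_) ρ
    · rfl
    · rfl
  rw [e]
  exact h2

end Pool.Agent.Y76.FG
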